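import Pool.Agent.K1H75.PW.Gen

/-!
# The p-adic monodromy-weight conjecture for the third cohomology of varieties without 3-forms

`K` is a finite extension of `ℚ_p` with residue field `k` with `q = p ^ h` elements and `X_K` is a smooth
projective variety of dimension `n` over `K` which has a projective strictly semistable model over the ring of
integers. All the data below are those of the `p`-adic theory, over an algebraic closure `Ω` of
`P_0 = W(k̄)[1/p]`:

* the crystalline cohomology of the strata `Y^(a+1)` of the special fibre `Y`, with the linear Frobenius
  (`SpecialFibre`);
* the groups `H^m_pst(X)` of the problem, that is, the Hyodo-Kato (log-crystalline) cohomology of `Y`, with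
  `F = φ ^ h` and `N`. As the inertia group acts trivially, every `g` in the Weil group with `v(g) = h j` acts
  as `F ^ j`;
* the weight spectral sequence of Mokrane (`SemistableModel`, `Degeneration`).

Idea of the proof. As the slopes of `H^3` are at least one, the restriction `H^2(Y^(1)) → H^2(Y^(2))` is
surjective on the parts of slope smaller than one. The multiplicities of conjugate Frobenius eigenvalues agree in
`H^2(Y^(1))`, in `H^2(Y^(2))` and in the kernel of the restriction, hence also in the image, and every eigenvalue
which is not `q` times a root of unity has a conjugate of slope smaller than one. So the restriction is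
surjective on the parts of all these eigenvalues. For the eigenvalues which are `q` times a root of unity the Tate
conjecture for divisors and the Hodge index theorem apply.

The starting file `MP_855f4c_ag.ThreefoldsWithoutForms` (library `X302.MW`, used here) is about the `ℓ`-adic
cohomology of threefolds with `H^2(X, O) = H^3(X, O) = 0`. Here the dimension is arbitrary, nothing is assumed
on `H^2(X, O)` beyond the rationality of the multiplicities in the kernel, and the theory is `p`-adic.
-/

set_option autoImplicit false

open Module

universe u v

namespace Pool.Agent.Results.MP_6451f1_ag.NoThreeForms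

open Pool.Agent.Y143 Pool.Agent.X302.MW Pool.Agent.K1H75.PW

/-- The characteristic polynomial of the Frobenius on `H^m(Y^(a+1))` has rational coefficients: conjugate
algebraic numbers have the same multiplicities as eigenvalues (Katz-Messing). -/
def RationalFrobenius {Ω : Type u} [Field Ω] [CharZero Ω] {Γ : Type} {n q : ℕ} (X : SpecialFibre.{u, v} Ω Γ n q)
    (a : ℕ) (m : ℤ) : Prop :=
  ∀ α α' : Ω, AreConjugate α α' → finrank Ω (frobPart X a m α) = finrank Ω (frobPart X a m α')

variable {Ω : Type u} [Field Ω] [CharZero Ω] [IsAlgClosed Ω] {Γ : Type} {n q : ℕ}

/-- The condition `RationalKernel` holds if the Frobenius eigenvalues on `H^2_pst(X)` are `q` times roots of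
unity, for example if `H^2(X, O) = 0`. -/
theorem rationalKernel (X : Degeneration.{u, v} Ω Γ n q) (hI : HasIntegralFrobenius X.toSpecialFibre)
    (h2 : ∀ α, IsEigenvalueOn X.toSemistableModel 2 α → IsTateNumber q α) :
    RationalKernel X.toSpecialFibre :=
  rationalKernel_of_tate X.toSemistableModel hI h2

/-- **The p-adic monodromy-weight conjecture for the third cohomology of varieties without 3-forms.** Let `X_K`
be a smooth projective variety of dimension `n` over a finite extension `K` of `ℚ_p`, with `H^3(X_K, O) = 0`,
which has a projective strictly semistable model over the ring of integers, with residue field with `q` elements.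
Suppose that `n = 3`, or that the Frobenius eigenvalues on `H^2` of the triple intersections are `q` times roots
of unity (for example that there are no triple points), and that the irreducible components of the special fibre
satisfy the Tate conjecture for divisors. Then Q1 holds for `H^m_pst(X)`, for `m ≤ 3` and for `m ≥ 2 n - 3`; so
for all `m` if `n = 3`.

Here `X` is the `p`-adic theory, `R` is the valuation ring of `Ω`. The hypotheses are the following.

* `hI`, `hC0`, `hC1` (known, Katz-Messing): the Frobenius eigenvalues on the strata are algebraic integers, and
  the Frobenius has rational characteristic polynomials on `H^2(Y^(1))` and on `H^2(Y^(2))`.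
* `hK`: conjugate numbers which are not `q` times a root of unity have the same multiplicities as Frobenius
  eigenvalues on the kernel of `H^2(Y^(1)) → H^2(Y^(2))`, which is the part of weight two of `H^2_pst(X)` up to
  Tate classes; see `rationalKernel` for the case `H^2(X_K, O) = 0`.
* `h3`: the Frobenius eigenvalues on `H^3_pst(X)` have slope at least one; this is the case if
  `H^3(X_K, O) = 0`, because the Newton polygon lies above the Hodge polygon.
* `hT`: the Tate conjecture for divisors on the components (crystalline cohomology). -/
theorem result (hq : IsPrimePow q) (X : Degeneration.{u, v} Ω Γ n q) (A : DivisorClasses X.toSpecialFibre)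
    (hI : HasIntegralFrobenius X.toSpecialFibre)
    (hC0 : RationalFrobenius X.toSpecialFibre 0 2) (hC1 : RationalFrobenius X.toSpecialFibre 1 2)
    (hK : RationalKernel X.toSpecialFibre)
    (R : ValuationSubring Ω) (hR : ((q : Ω))⁻¹ ∉ R)
    (h3 : ∀ α, IsEigenvalueOn X.toSemistableModel 3 α → α / q ∈ R)
    (hT : A.TateConj 0) (hY : n = 3 ∨ TateTriple X.toSpecialFibre) (m : ℕ) (hm : m ≤ 3 ∨ 2 * n ≤ m + 3) :
    PadicMonodromyWeight q m (X.actV m X.frob) (X.N m) := by
  have hY' : TateTriple X.toSpecialFibre := hY.elim (fun h => tateTriple_three X.toSpecialFibre h hI) id
  exact padic_of_mw (mw_third X hI A hT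
    (fun α hα z hz => surj_nonTate X.toSemistableModel hq hI hY' hC0 hC1 hK R hR h3 α hα z hz) m hm)

end Pool.Agent.Results.MP_6451f1_ag.NoThreeForms
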