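import Pool.Agent.K1H13.M.Main2

/-!
# The monodromy-weight conjecture and classes reached by correspondences and cup products

`K` is a local field of characteristic zero whose residue field is finite with `q` elements and `W`
is the cohomology of the smooth projective varieties over `K`: the spaces `H_pst,p` of the problem
with coefficients extended to an algebraic closure of `P_0` (the theorem applies to the `ℓ`-adic
cohomology as well). `F` is the action of an element `g` of the Weil group of `K` with `v(g) = h`,
which is linear and satisfies `N F = q F N`. Since a power of every element of the Weil group agrees
with a power of `g` up to an element of the inertia group which acts trivially, the conjecture for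
`g` is equivalent to the conjecture for all elements of the Weil group. The data `LocalAction` record
the known properties of `F` and `N`: compatibility with cup products, pull-backs, traces and classes
of cycles, the fact that the eigenvalues of `F` are Weil numbers of integral weights, the hard
Lefschetz theorem and the weight-monodromy conjecture in the degrees `m ≤ 2`.

A class is *reached* if it can be obtained from classes in the groups `H^m(Y)`, `m ≤ 2`, and from
classes in stable subspaces of groups `H^m(Y)` for which the conjecture holds, for any varieties `Y`
over `K` and any `m`, by linear combinations, cup products, algebraic correspondences and the inverses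
of the Lefschetz isomorphisms, in any order and through any number of intermediate varieties.

1. The conjecture holds for `H^m(X)` if and only if all classes in `H^m(X)` are reached.
2. In general, the number of the eigenvalues of `F` on the graded pieces of the monodromy filtration
   of `H^m(X)` which do not have the weight predicted by the conjecture is at most twice the
   codimension of the space of the reached classes in `H^m(X)`.
3. More generally, let `S` and `T` be stable subspaces of `H^m(X)` and `H^(2 dim X - m)(X)` which are
   in perfect duality under the Poincare pairing. The number of the wrong eigenvalues on `S` is at
   most the sum of the codimensions of the spaces of the reached classes in `S` and in `T`, and the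
   conjecture holds for `S` if `S` and `T` consist of reached classes.
4. The conjecture holds for the part of degree `m` of the subalgebra generated by the groups
   `H^0(X)`, `H^1(X)` and `H^2(X)`, provided that this part is dual to the part of degree
   `2 dim X - m` under the Poincare pairing (for example, if `X` is a hyper-Kahler variety, by a
   theorem of Verbitsky, or if `H^*(X)` is generated in degrees at most two).

The images of correspondences and of cup products are quotients of cohomology groups for which the
conjecture may be known, but they are not known to be direct summands, and no standard conjecture is
assumed.
-/

set_option autoImplicit false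

open Module CategoryTheory AlgebraicGeometry

universe u v

namespace Pool.Agent.Results.MP_6451f1_ag.ReachedClasses

open Pool.Agent.Y143 Pool.Agent.H914 Pool.Agent.H914.VarClass Pool.Agent.K1H13.M

/-- The weight-monodromy conjecture holds for `H^m(X)` if and only if all classes in `H^m(X)` are
reached, and the number of wrong eigenvalues is at most twice the codimension of the space of the
reached classes. -/
theorem result {k : Type u} [Field k] {𝒱 : VarClass k} {ops : CycleOps 𝒱}
    {W : WeilCohomology.{u, v} ops} [IsAlgClosed W.K] {q : ℕ} (hq : 1 < q) (D : LocalAction W q)
    (X : 𝒱.Obj) (m m' : ℕ) (hm : m + m' = 2 * X.dim) :
    (MW D X m ↔ AllReached D X m (W.gr X m)) ∧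
    WrongLE D X m (W.gr X m) (2 * defect D X m (W.gr X m)) ∧
    (∀ S T : Submodule W.K (W.H X), DualParts D X m m' S T →
      WrongLE D X m S (defect D X m S + defect D X m' T) ∧
      (AllReached D X m S → AllReached D X m' T → PurePart D X m S)) ∧
    (IsPerfect (W.tr X) (lowPart (W.gr X) m) (lowPart (W.gr X) m') →
      PurePart D X m (lowPart (W.gr X) m)) :=
  ⟨mw_iff hq (by omega), fun _ hM => wrong_gr hq (by omega) hM,
    fun _ _ h => ⟨fun _ hM => wrong_part hq hm h.1.1 h.2.1.1 h.1.2 h.2.1.2 h.2.2 hM,
      fun rS rT => ⟨h.1, pure_part hq hm h.1.1 h.2.1.1 h.1.2 h.2.1.2 h.2.2 rS rT⟩⟩,
    fun hP => ⟨⟨inf_le_left, stable_low m⟩, pure_low hq hm hP⟩⟩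

end Pool.Agent.Results.MP_6451f1_ag.ReachedClasses
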