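import Pool.Agent.X302.MW.Three
import Pool.Agent.K1H75.PW.Pow

/-!
# The p-adic monodromy-weight conjecture for the third cohomology group, in all dimensions

`X_K` is a smooth projective variety of dimension `n` over a finite extension `K` of `ℚ_p` which has a
projective strictly semistable model over the ring of integers. As in `ThreefoldsWithoutForms` the data are
those of the `p`-adic theory. The group `Γ` of operators contains the Frobenius; it may contain further
commuting operators, such as commuting automorphisms of the model or Hecke correspondences.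
-/

set_option autoImplicit false

open Module

universe u v

namespace Pool.Agent.Results.MP_6451f1_ag.ThirdCohomology

open Pool.Agent.Y143 Pool.Agent.X302.MW Pool.Agent.K1H75.PW

/-- The subspace of `H^2(Y^(a+1))` on which the operators in `Γ` act by the character `χ` (simultaneous
generalized eigenspace). -/
def part {Ω : Type u} [Field Ω] [CharZero Ω] {Γ : Type} {n q : ℕ} (X : SpecialFibre.{u, v} Ω Γ n q) (a : ℕ)
    (χ : Γ → Ω) : Submodule Ω (X.H a) :=
  X.gr a 2 ⊓ Wt (X.act a) χ

variable {Ω : Type u} [Field Ω] [CharZero Ω] {Γ : Type} {n q : ℕ}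

lemma prim_comp [IsAlgClosed Ω] (X : Degeneration.{u, v} Ω Γ n q) (hI : HasIntegralFrobenius X.toSpecialFibre)
    {χ : Γ → Ω} (hα : ¬ IsTateNumber q (χ X.frob)) {x : X.C} (hx : x ∈ X.primPart 1 2 χ) :
    x = Pi.single 1 (x 1) ∧ x 1 ∈ part X.toSpecialFibre 1 χ := by
  classical
  have hq : (q : Ω) ≠ 0 := Nat.cast_ne_zero.2 X.q_ne
  obtain ⟨⟨hxE, -⟩, hxW⟩ := hx
  have hxg : x ∈ Module.End.maxGenEigenspace (X.actC 1 X.frob) (χ X.frob) := by
    have h1 : x ∈ Wt (X.actC 1) χ := hxW
    unfold Wt at h1
    rw [Submodule.mem_iInf] at h1
    exact h1 X.frob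
  refine ⟨?_, ?_, ?_⟩
  · funext b
    by_cases hb : b = 1
    · subst hb
      rw [Pi.single_eq_same]
    · rw [Pi.single_eq_of_ne hb]
      by_cases hc : InColumn 1 b
      · have hc2 := hc.2
        have hc1 := hc.1
        rw [abs_one] at hc1
        by_cases hb3 : b = 3
        · subst hb3
          by_contra hne
          have h3 := comp_gen X.toSpecialFibre 1 hxg 3
          rw [show (((3 : ℕ) : ℤ) - 1) / 2 = 1 by norm_num, zpow_one] at h3
          have h4 := (hxE 3).1
          rw [show (2 : ℤ) + 1 - ((3 : ℕ) : ℤ) = 0 by norm_num] at h4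
          obtain ⟨-, k, hk, hk'⟩ := h0_root X.toSpecialFibre hI 3 ⟨h4, h3⟩ hne
          exact hα (isTate_of_root hq hk hk')
        · have h4 := (hxE b).1
          have h5 : X.gr b (2 + 1 - (b : ℤ)) = ⊥ := X.gr_eq_bot b _ (Or.inl (by omega))
          rw [h5] at h4
          exact h4
      · exact (hxE b).2 hc
  · have := (hxE 1).1
    rwa [show (2 : ℤ) + 1 - ((1 : ℕ) : ℤ) = 2 by norm_num] at this
  · exact wt_comp X (a := 1) hxW

/-- **The p-adic monodromy-weight conjecture for `H^3`.** Let `X_K` be a smooth projective variety of any
dimension `n` over a finite extension `K` of `ℚ_p` with a projective strictly semistable model over the ring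
of integers. Suppose that the components of the special fibre satisfy the Tate conjecture for divisors and
that every character `χ` of `Γ` for which `χ(frob)` is not `q` times a root of unity and which occurs in
`H^2(Y^(1))` has multiplicity at most one in `H^2(Y^(2))`. (For example, `Γ` is generated by the Frobenius and
the Frobenius eigenvalues on `H^2(Y^(2))` which are not `q` times a root of unity are simple, or they are no
eigenvalues on `H^2(Y^(1))`.) Then Q1 holds for `H^m_pst(X)`, `m ≤ 3` and `m ≥ 2 n - 3`. -/
theorem result [IsAlgClosed Ω] (X : Degeneration.{u, v} Ω Γ n q) (A : DivisorClasses X.toSpecialFibre)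
    (hI : HasIntegralFrobenius X.toSpecialFibre) (hT : A.TateConj 0)
    (h : ∀ χ : Γ → Ω, ¬ IsTateNumber q (χ X.frob) → part X.toSpecialFibre 0 χ ≠ ⊥ →
      finrank Ω (part X.toSpecialFibre 1 χ) ≤ 1) (m : ℕ) (hm : m ≤ 3 ∨ 2 * n ≤ m + 3) :
    PadicMonodromyWeight q m (X.actV m X.frob) (X.N m) := by
  classical
  apply padic_of_mw
  apply mw X A m
  intro a w χ h1 h2 h3
  obtain rfl : w = 2 := by omega
  obtain rfl : a = 0 := by omega
  by_cases hα : IsTateNumber q (χ X.frob)
  · right
    right
    right
    refine ⟨rfl, fun x hx hxW => ?_⟩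
    apply hT _ hα x hx
    unfold Wt at hxW
    rw [Submodule.mem_iInf] at hxW
    exact hxW X.frob
  · by_cases h0 : part X.toSpecialFibre 0 χ = ⊥
    · right
      right
      left
      unfold AbsentAt
      rw [disjoint_iff]
      exact h0
    · left
      left
      refine le_trans ?_ (h χ hα h0)
      have hfin := (X.duality 1).1.finite
      let f : (X.primPart 1 2 χ) →ₗ[Ω] part X.toSpecialFibre 1 χ :=
        { toFun := fun x => ⟨(x : X.C) 1, (prim_comp X hI hα x.2).2⟩
          map_add' := fun x y => rfl
          map_smul' := fun c x => rfl }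
      have hf : Function.Injective f := by
        intro x y hxy
        apply Subtype.ext
        rw [(prim_comp X hI hα x.2).1, (prim_comp X hI hα y.2).1]
        congr 1
        exact congrArg Subtype.val hxy
      have := LinearMap.finrank_le_finrank_of_injective hf
      simpa using this

end Pool.Agent.Results.MP_6451f1_ag.ThirdCohomology
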